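import Pool.Agent.Helper24.FP.Own

/-!
# Complemented Banach subspaces of Lipschitz free `p`-spaces

For `0 < p < 1` and every metric space `M` no complemented subspace of the Lipschitz free `p`-space
`F_p(M)`, defined by its universal property, is isomorphic to an infinite-dimensional Banach space. There is even
a bound for the dimension which depends on `p`, the norm of the projection and the norms of the isomorphism
and its inverse only.
-/

set_option autoImplicit false

open Filter Topology Set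

universe u v

namespace Pool.Agent.Results.MP_5e7086_an.NoBanachComplement

/-- `N` is a `p`-norm on the real vector space `X`. -/
structure PNorm (p : ℝ) {X : Type u} [AddCommGroup X] [Module ℝ X] (N : X → ℝ) : Prop where
  nonneg : ∀ x, 0 ≤ N x
  zero : ∀ x, N x = 0 ↔ x = 0
  smul : ∀ (c : ℝ) (x : X), N (c • x) = |c| * N x
  add : ∀ x y, N (x + y) ^ p ≤ N x ^ p + N y ^ p

/-- Every Cauchy sequence for `N` converges. -/
def Complete {X : Type u} [AddCommGroup X] (N : X → ℝ) : Prop :=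
  ∀ s : ℕ → X, (∀ ε > 0, ∃ K : ℕ, ∀ m ≥ K, ∀ n ≥ K, N (s m - s n) < ε) →
    ∃ z, Tendsto (fun n => N (s n - z)) atTop (𝓝 0)

/-- `(F, N, δ)` is the Lipschitz free `p`-space over the metric space `M` with the base point `o`: `F` is a
`p`-Banach space with the `p`-norm `N`, `δ o = 0`, `δ` is Lipschitz with the constant `1`, the linear span of
`δ(M)` is dense, and for every `p`-Banach space `X` and every Lipschitz map `f : M → X` with `f o = 0` there is
exactly one bounded linear map `T : F → X` with `T ∘ δ = f`, and the norm of `T` is the Lipschitz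
constant of `f` (they have the same upper bounds). -/
structure IsFree (p : ℝ) {M : Type u} [MetricSpace M] (o : M) {F : Type u} [AddCommGroup F]
    [Module ℝ F] (N : F → ℝ) (δ : M → F) : Prop where
  pnorm : PNorm p N
  complete : Complete N
  base : δ o = 0
  lip : ∀ u v, N (δ u - δ v) ≤ dist u v
  dense : ∀ z : F, ∀ ε > 0, ∃ y ∈ Submodule.span ℝ (range δ), N (z - y) < ε
  univ : ∀ (X : Type u) [AddCommGroup X] [Module ℝ X] (N' : X → ℝ), PNorm p N' → Complete N' →
    ∀ f : M → X, f o = 0 → (∃ C : ℝ, ∀ u v, N' (f u - f v) ≤ C * dist u v) →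
    ∃ T : F →ₗ[ℝ] X, (∀ x, T (δ x) = f x) ∧
      (∀ C : ℝ, 0 ≤ C → ((∀ z, N' (T z) ≤ C * N z) ↔ ∀ u v, N' (f u - f v) ≤ C * dist u v)) ∧
      ∀ T' : F →ₗ[ℝ] X, (∀ x, T' (δ x) = f x) → (∃ C : ℝ, ∀ z, N' (T' z) ≤ C * N z) → T' = T

/-- There is a linear projection of `F` onto `Y` with norm at most `a` (so `Y` is closed). -/
def Complemented (a : ℝ) {F : Type u} [AddCommGroup F] [Module ℝ F] (N : F → ℝ)
    (Y : Submodule ℝ F) : Prop :=
  ∃ P : F →ₗ[ℝ] F, (∀ z, N (P z) ≤ a * N z) ∧ (∀ z, P z ∈ Y) ∧ ∀ y ∈ Y, P y = y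

/-- There is a linear bijection of `Y` with the `p`-norm `N` onto the normed space `X` with norm at most
`b` whose inverse has norm at most `c`. -/
def Isomorphic (b c : ℝ) {F : Type u} [AddCommGroup F] [Module ℝ F] (N : F → ℝ)
    (Y : Submodule ℝ F) (X : Type v) [NormedAddCommGroup X] [NormedSpace ℝ X] : Prop :=
  ∃ Φ : Y ≃ₗ[ℝ] X, (∀ y : Y, ‖Φ y‖ ≤ b * N y) ∧ ∀ x : X, N (Φ.symm x) ≤ c * ‖x‖

theorem result {p : ℝ} (hp0 : 0 < p) (hp1 : p < 1) (a b c : ℝ) :
    ∃ n : ℕ, ∀ {M : Type u} [MetricSpace M] {o : M} {F : Type u} [AddCommGroup F] [Module ℝ F]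
      {N : F → ℝ} {δ : M → F}, IsFree p o N δ → ∀ {Y : Submodule ℝ F}, Complemented a N Y →
      ∀ {X : Type v} [NormedAddCommGroup X] [NormedSpace ℝ X], Isomorphic b c N Y X →
      FiniteDimensional ℝ X ∧ Module.finrank ℝ X ≤ n := by
  obtain ⟨n, hn⟩ := Pool.Agent.Helper24.FP.main.{u, v} hp0 hp1 c (max b 0 * a)
  refine ⟨n, ?_⟩
  intro M _ o F _ _ N δ h Y hY X _ _ hX
  have h' : Pool.Agent.Helper24.FP.IsFree p o N δ :=
    ⟨⟨h.pnorm.nonneg, h.pnorm.zero, h.pnorm.smul, h.pnorm.add⟩, h.complete, h.base, h.lip, h.dense,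
      fun X _ _ N' h1 h2 => h.univ X N' ⟨h1.nonneg, h1.zero, h1.smul, h1.add⟩ h2⟩
  obtain ⟨P, hP, hPY, hPy⟩ := hY
  obtain ⟨Φ, h1, h2⟩ := hX
  refine hn h' (Y.subtype.comp Φ.symm.toLinearMap)
    (Φ.toLinearMap.comp (P.codRestrict Y hPY)) h2 (fun y => ?_) (fun x => ?_)
  · refine (h1 _).trans ?_
    calc b * N (P y) ≤ max b 0 * N (P y) := by
          gcongr
          · exact h.pnorm.nonneg _
          · exact le_max_left _ _
      _ ≤ max b 0 * (a * N y) := by
          gcongr
          exact hP y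
      _ = max b 0 * a * N y := by ring
  · show Φ (P.codRestrict Y hPY (Φ.symm x : F)) = x
    have e : P.codRestrict Y hPY (Φ.symm x : F) = Φ.symm x := by
      apply Subtype.ext
      exact hPy _ (Φ.symm x).2
    rw [e, LinearEquiv.apply_symm_apply]

end Pool.Agent.Results.MP_5e7086_an.NoBanachComplement
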